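import Pool.Agent.N879.GD.Stm

set_option autoImplicit false

/-!
Project GZ, package COV: the Hausdorff dimension of a limsup set of sets covered by balls.
-/

namespace Pool.Agent.U739.GZ.COV

open MeasureTheory Filter Topology Set
open scoped ENNReal NNReal

lemma card_bound {k : ℕ} {B B' : Set (Fin k → ℝ)} {r v : ℝ} (hr : 0 < r)
    (hB : ∀ x ∈ B, Metric.closedBall x r ⊆ B') (hv : volume B' ≤ ENNReal.ofReal v) (hv0 : 0 ≤ v)
    (P : Finset (Fin k → ℝ)) (hP : ∀ x ∈ P, x ∈ B)
    (hsep : ∀ x ∈ P, ∀ y ∈ P, x ≠ y → r < dist x y) : (P.card : ℝ) * r ^ k ≤ v := by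
  have h1 : volume (⋃ p ∈ P, Metric.ball p (r / 2)) = ∑ p ∈ P, volume (Metric.ball p (r / 2)) := by
    rw [measure_biUnion_finset]
    · intro x hx y hy hxy
      apply Metric.ball_disjoint_ball
      have := hsep x hx y hy hxy
      linarith
    · intro p _
      exact Metric.isOpen_ball.measurableSet
  have h2 : ⋃ p ∈ P, Metric.ball p (r / 2) ⊆ B' := by
    refine iUnion₂_subset fun p hp => ?_
    refine Subset.trans ?_ (hB p (hP p hp))
    exact (Metric.ball_subset_ball (by linarith)).trans Metric.ball_subset_closedBall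
  have h3 : ∀ p : Fin k → ℝ, volume (Metric.ball p (r / 2)) = ENNReal.ofReal (r ^ k) := by
    intro p
    rw [Real.volume_pi_ball p (by linarith : 0 < r / 2), Fintype.card_fin]
    congr 2
    ring
  have h4 := (measure_mono h2).trans hv
  rw [h1] at h4
  simp only [h3, Finset.sum_const, nsmul_eq_mul] at h4
  rw [← ENNReal.ofReal_natCast, ← ENNReal.ofReal_mul (by positivity)] at h4
  exact (ENNReal.ofReal_le_ofReal_iff hv0).1 h4

lemma cover {k : ℕ} {B B' : Set (Fin k → ℝ)} {r v : ℝ} (hr : 0 < r)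
    (hB : ∀ x ∈ B, Metric.closedBall x r ⊆ B') (hv : volume B' ≤ ENNReal.ofReal v) (hv0 : 0 ≤ v) :
    ∃ P : Finset (Fin k → ℝ), (P.card : ℝ) * r ^ k ≤ v ∧ B ⊆ ⋃ p ∈ P, Metric.closedBall p r := by
  classical
  set S : Set ℕ := {n | ∃ P : Finset (Fin k → ℝ), (∀ x ∈ P, x ∈ B) ∧
    (∀ x ∈ P, ∀ y ∈ P, x ≠ y → r < dist x y) ∧ P.card = n} with hS
  have hne : S.Nonempty := ⟨0, ∅, by simp, by simp, by simp⟩
  have hbd : BddAbove S := by
    refine ⟨⌊v / r ^ k⌋₊, ?_⟩
    rintro n ⟨P, hP, hsep, rfl⟩
    apply Nat.le_floor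
    rw [le_div_iff₀ (by positivity)]
    exact card_bound hr hB hv hv0 P hP hsep
  obtain ⟨P, hP, hsep, hcard⟩ := Nat.sSup_mem hne hbd
  refine ⟨P, card_bound hr hB hv hv0 P hP hsep, fun x hx => ?_⟩
  by_contra hcon
  simp only [mem_iUnion, Metric.mem_closedBall, not_exists, not_le] at hcon
  have hxP : x ∉ P := fun h => by
    have := hcon x h
    rw [dist_self] at this
    linarith
  have h1 : (insert x P).card ∈ S := by
    refine ⟨insert x P, ?_, ?_, rfl⟩
    · intro y hy
      rcases Finset.mem_insert.1 hy with rfl | hy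
      · exact hx
      · exact hP y hy
    · intro y hy z hz hyz
      have hy' := Finset.mem_insert.1 hy
      have hz' := Finset.mem_insert.1 hz
      rcases hy' with hy1 | hy1
      · rcases hz' with hz1 | hz1
        · exact absurd (hy1.trans hz1.symm) hyz
        · rw [hy1]; exact hcon z hz1
      · rcases hz' with hz1 | hz1
        · rw [hz1, dist_comm]; exact hcon y hy1
        · exact hsep y hy1 z hz1 hyz
  have h2 := le_csSup hbd h1
  rw [Finset.card_insert_of_notMem hxP, hcard] at h2
  omega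

theorem t_COV : Pool.Agent.N879.GD.S_COV := by
  intro k s B B' r v hk hs hr hr0 hv hBB hvol hsum
  classical
  obtain ⟨n₀, hn₀⟩ := (hBB.and hvol).exists_forall_of_atTop
  have hP : ∀ n, ∃ P : Finset (Fin k → ℝ), (P.card : ℝ) * r n ^ k ≤ v n ∧
      (n₀ ≤ n → B n ⊆ ⋃ p ∈ P, Metric.closedBall p (r n)) := by
    intro n
    by_cases hn : n₀ ≤ n
    · obtain ⟨P, h1, h2⟩ := cover (hr n) (hn₀ n hn).1 (hn₀ n hn).2 (hv n)
      exact ⟨P, h1, fun _ => h2⟩
    · exact ⟨∅, by simpa using hv n, fun h => absurd h hn⟩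
  choose P hcard hcov using hP
  set K : ℝ≥0∞ := ENNReal.ofReal (∑' n, 2 ^ s * (v n * r n ^ (s - k))) with hK
  have hsum2 : Summable fun n => 2 ^ s * (v n * r n ^ (s - k)) := hsum.mul_left _
  have hterm : ∀ n, ((P n).card : ℝ≥0∞) * (ENNReal.ofReal (2 * r n)) ^ s ≤
      ENNReal.ofReal (2 ^ s * (v n * r n ^ (s - k))) := by
    intro n
    rw [ENNReal.ofReal_rpow_of_nonneg (by linarith [hr n]) hs.le, ← ENNReal.ofReal_natCast,
      ← ENNReal.ofReal_mul (by positivity)]
    apply ENNReal.ofReal_le_ofReal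
    rw [Real.mul_rpow (by norm_num) (hr n).le, Real.rpow_sub (hr n), Real.rpow_natCast]
    have h1 : ((P n).card : ℝ) ≤ v n / r n ^ k := by
      rw [le_div_iff₀ (pow_pos (hr n) _)]
      exact hcard n
    have h2 : 0 ≤ (2:ℝ) ^ s * r n ^ s := by
      have := Real.rpow_nonneg (hr n).le s
      positivity
    calc ((P n).card : ℝ) * (2 ^ s * r n ^ s) ≤ v n / r n ^ k * (2 ^ s * r n ^ s) :=
          mul_le_mul_of_nonneg_right h1 h2
      _ = 2 ^ s * (v n * (r n ^ s / r n ^ k)) := by ring
  set E : Set (Fin k → ℝ) := {x | ∃ᶠ n in atTop, x ∈ B n} with hE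
  -- the covering
  have hmeas : μH[s] E ≤ K := by
    have h := Measure.hausdorffMeasure_le_liminf_tsum (X := Fin k → ℝ) (β := ℕ)
      (ι := fun n => Σ m : ℕ, {p // p ∈ P (n + m)}) s E (l := atTop)
      (fun n => ⨆ m : ℕ, ENNReal.ofReal (2 * r (n + m))) ?_
      (fun n i => Metric.closedBall (i.2 : Fin k → ℝ) (r (n + i.1))) ?_ ?_
    · refine h.trans ?_
      refine (liminf_le_liminf (u := _) (v := fun _ => K) ?_).trans ?_
      · refine Eventually.of_forall fun n => ?_
        have hd : ∀ i : (Σ m : ℕ, {p // p ∈ P (n + m)}),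
            Metric.ediam (Metric.closedBall (i.2 : Fin k → ℝ) (r (n + i.1))) ^ s ≤
            (ENNReal.ofReal (2 * r (n + i.1))) ^ s := by
          intro i
          refine ENNReal.rpow_le_rpow ?_ hs.le
          refine Metric.ediam_le_of_forall_dist_le fun x hx y hy => ?_
          have h1 := Metric.mem_closedBall.1 hx
          have h2 := Metric.mem_closedBall.1 hy
          have h3 := dist_triangle_right x y (i.2 : Fin k → ℝ)
          linarith
        calc ∑' i : (Σ m : ℕ, {p // p ∈ P (n + m)}),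
              Metric.ediam (Metric.closedBall (i.2 : Fin k → ℝ) (r (n + i.1))) ^ s
            ≤ ∑' i : (Σ m : ℕ, {p // p ∈ P (n + m)}), (ENNReal.ofReal (2 * r (n + i.1))) ^ s :=
              ENNReal.tsum_le_tsum hd
          _ = ∑' m : ℕ, ∑' _ : {p // p ∈ P (n + m)}, (ENNReal.ofReal (2 * r (n + m))) ^ s :=
              ENNReal.tsum_sigma (fun (m : ℕ) (_ : {p // p ∈ P (n + m)}) =>
                (ENNReal.ofReal (2 * r (n + m))) ^ s)
          _ = ∑' m : ℕ, ((P (n + m)).card : ℝ≥0∞) * (ENNReal.ofReal (2 * r (n + m))) ^ s := by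
              congr 1
              ext m
              rw [tsum_fintype, Finset.sum_const, nsmul_eq_mul, Finset.card_univ,
                Fintype.card_coe]
          _ ≤ ∑' m : ℕ, ENNReal.ofReal (2 ^ s * (v (n + m) * r (n + m) ^ (s - k))) :=
              ENNReal.tsum_le_tsum fun m => hterm (n + m)
          _ ≤ ∑' m : ℕ, ENNReal.ofReal (2 ^ s * (v m * r m ^ (s - k))) :=
              ENNReal.tsum_comp_le_tsum_of_injective (f := fun m => n + m)
                (fun a b hab => by simpa using hab)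
                (fun m => ENNReal.ofReal (2 ^ s * (v m * r m ^ (s - k))))
          _ = K := by
              rw [hK, ENNReal.ofReal_tsum_of_nonneg _ hsum2]
              intro n
              have := hv n
              have := Real.rpow_nonneg (hr n).le (s - k)
              positivity
      · simp
    · -- radii tend to zero
      rw [ENNReal.tendsto_atTop_zero]
      intro ε hε
      have h1 : Tendsto (fun n => ENNReal.ofReal (2 * r n)) atTop (𝓝 0) := by
        have := ENNReal.tendsto_ofReal (hr0.const_mul 2)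
        simpa using this
      obtain ⟨N, hN⟩ := (ENNReal.tendsto_atTop_zero.1 h1) ε hε
      exact ⟨N, fun n hn => iSup_le fun m => hN (n + m) (by omega)⟩
    · refine Eventually.of_forall fun n i => ?_
      refine le_trans ?_ (le_iSup (fun m : ℕ => ENNReal.ofReal (2 * r (n + m))) i.1)
      refine Metric.ediam_le_of_forall_dist_le fun x hx y hy => ?_
      have h1 := Metric.mem_closedBall.1 hx
      have h2 := Metric.mem_closedBall.1 hy
      have h3 := dist_triangle_right x y (i.2 : Fin k → ℝ)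
      linarith
    · filter_upwards [eventually_ge_atTop n₀] with n hn
      intro x hx
      obtain ⟨m, hm, hxm⟩ := (frequently_atTop.1 hx) n
      have h1 := hcov m (hn.trans hm) hxm
      simp only [mem_iUnion] at h1
      obtain ⟨p, hp, hxp⟩ := h1
      obtain ⟨j, rfl⟩ := Nat.exists_eq_add_of_le hm
      exact mem_iUnion.2 ⟨⟨j, p, hp⟩, hxp⟩
  have hfin : μH[((s.toNNReal : ℝ≥0) : ℝ)] E ≠ ∞ := by
    rw [Real.coe_toNNReal s hs.le]
    exact ne_top_of_le_ne_top ENNReal.ofReal_ne_top hmeas
  exact dimH_le_of_hausdorffMeasure_ne_top hfin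

end Pool.Agent.U739.GZ.COV
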